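import Pool.Agent.Helper14.KL.Defs

/-!
Block KL-A1: the Fischer inner product.
-/

set_option autoImplicit false

open MvPolynomial Finset
open Pool.Agent.Helper14.KL

namespace Pool.Agent.Helper11.KL

variable {n : ℕ}

lemma fw_pos (s : Fin n →₀ ℕ) : 0 < fw s := by
  unfold fw
  exact Finset.prod_pos fun i _ => by exact_mod_cast Nat.factorial_pos _

lemma fw_add_single (s : Fin n →₀ ℕ) (i : Fin n) :
    fw (s + Finsupp.single i 1) = (s i + 1) * fw s := by
  unfold fw
  rw [← Finset.mul_prod_erase univ _ (Finset.mem_univ i), ← Finset.mul_prod_erase univ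
    (fun j => ((s j).factorial : ℝ)) (Finset.mem_univ i)]
  have h1 : ∀ j ∈ univ.erase i, (((s + Finsupp.single i 1 : Fin n →₀ ℕ) j).factorial : ℝ) =
      ((s j).factorial : ℝ) := by
    intro j hj
    rw [Finsupp.add_apply, Finsupp.single_eq_of_ne (Finset.ne_of_mem_erase hj), add_zero]
  rw [Finset.prod_congr rfl h1, Finsupp.add_apply, Finsupp.single_eq_same,
    Nat.factorial_succ]
  push_cast
  ring

/-- the sum may be taken over every finite set containing the support of `p` -/
theorem fis_eq_sum (p q : PP n) (S : Finset (Fin n →₀ ℕ)) (hS : p.support ⊆ S) :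
    fis p q = ∑ s ∈ S, fw s * (coeff s p * coeff s q) := by
  unfold fis
  apply Finset.sum_subset hS
  intro α _ h
  rw [notMem_support_iff.1 h]
  ring

lemma fis_eq_sum_right (p q : PP n) (S : Finset (Fin n →₀ ℕ)) (hS : q.support ⊆ S) :
    fis p q = ∑ s ∈ S, fw s * (coeff s p * coeff s q) := by
  classical
  rw [fis_eq_sum p q (p.support ∪ S) subset_union_left]
  symm
  apply Finset.sum_subset subset_union_right
  intro α _ h
  have : coeff α q = 0 := notMem_support_iff.1 fun h2 => h (hS h2)
  rw [this]
  ring

theorem fis_add_left (p q r : PP n) : fis (p + q) r = fis p r + fis q r := by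
  rw [fis_eq_sum_right _ _ r.support subset_rfl, fis_eq_sum_right _ _ r.support subset_rfl,
    fis_eq_sum_right _ _ r.support subset_rfl, ← Finset.sum_add_distrib]
  exact Finset.sum_congr rfl fun α _ => by rw [coeff_add]; ring

theorem fis_smul_left (c : ℝ) (p q : PP n) : fis (C c * p) q = c * fis p q := by
  rw [fis_eq_sum_right _ _ q.support subset_rfl, fis_eq_sum_right _ _ q.support subset_rfl,
    Finset.mul_sum]
  exact Finset.sum_congr rfl fun α _ => by rw [coeff_C_mul]; ring

theorem fis_comm (p q : PP n) : fis p q = fis q p := by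
  rw [fis_eq_sum_right _ _ q.support subset_rfl]
  unfold fis
  exact Finset.sum_congr rfl fun α _ => by ring

theorem fis_add_right (p q r : PP n) : fis p (q + r) = fis p q + fis p r := by
  rw [fis_comm, fis_add_left, fis_comm q, fis_comm r]

theorem fis_smul_right (c : ℝ) (p q : PP n) : fis p (C c * q) = c * fis p q := by
  rw [fis_comm, fis_smul_left, fis_comm]

theorem fis_self_nonneg (p : PP n) : 0 ≤ fis p p := by
  unfold fis
  exact Finset.sum_nonneg fun s _ => mul_nonneg (fw_pos s).le (mul_self_nonneg _)

@[simp] theorem fis_zero_left (q : PP n) : fis 0 q = 0 := by simp [fis]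

@[simp] theorem fis_zero_right (p : PP n) : fis p 0 = 0 := by simp [fis]

theorem fis_neg_left (p q : PP n) : fis (-p) q = - fis p q := by
  have h := fis_smul_left (-1) p q
  rw [C_neg, C_1, neg_one_mul] at h
  rw [h]; ring

theorem fis_neg_right (p q : PP n) : fis p (-q) = - fis p q := by
  rw [fis_comm, fis_neg_left, fis_comm]

theorem fis_sub_left (p q r : PP n) : fis (p - q) r = fis p r - fis q r := by
  rw [sub_eq_add_neg, fis_add_left, fis_neg_left]; ring

theorem fis_sub_right (p q r : PP n) : fis p (q - r) = fis p q - fis p r := by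
  rw [sub_eq_add_neg, fis_add_right, fis_neg_right]; ring

theorem fis_sum_left {ι : Type*} (S : Finset ι) (f : ι → PP n) (q : PP n) :
    fis (∑ i ∈ S, f i) q = ∑ i ∈ S, fis (f i) q := by
  classical
  induction S using Finset.induction_on with
  | empty => simp
  | insert a S ha ih => rw [Finset.sum_insert ha, Finset.sum_insert ha, fis_add_left, ih]

theorem fis_sum_right {ι : Type*} (S : Finset ι) (p : PP n) (f : ι → PP n) :
    fis p (∑ i ∈ S, f i) = ∑ i ∈ S, fis p (f i) := by
  rw [fis_comm, fis_sum_left]
  exact Finset.sum_congr rfl fun i _ => fis_comm _ _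

theorem fis_self_eq_zero {p : PP n} (h : fis p p = 0) : p = 0 := by
  unfold fis at h
  rw [Finset.sum_eq_zero_iff_of_nonneg fun s _ => mul_nonneg (fw_pos s).le (mul_self_nonneg _)] at h
  by_contra hf
  obtain ⟨s, hs⟩ := support_nonempty.2 hf
  have h1 := h s hs
  rcases mul_eq_zero.1 h1 with h4 | h4
  · exact (fw_pos s).ne' h4
  · exact mem_support_iff.1 hs (mul_self_eq_zero.1 h4)

/-- multiplication by `X i` is adjoint to the partial derivative -/
theorem fis_X_mul (i : Fin n) (p q : PP n) : fis (X i * p) q = fis p (pderiv i q) := by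
  classical
  induction p using MvPolynomial.induction_on' with
  | monomial α a =>
    rw [X, monomial_mul, one_mul, fis_eq_sum _ _ {Finsupp.single i 1 + α} support_monomial_subset,
      fis_eq_sum _ _ {α} support_monomial_subset, Finset.sum_singleton, Finset.sum_singleton,
      coeff_monomial, coeff_monomial, if_pos rfl, if_pos rfl, coeff_pderiv,
      add_comm (Finsupp.single i 1) α, fw_add_single]
    ring
  | add f f' hf hf' =>
    rw [mul_add, fis_add_left, fis_add_left, hf, hf']

end Pool.Agent.Helper11.KL
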